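import Pool.Agent.Helper5.FV.Stmts

set_option autoImplicit false

open Finset

namespace Pool.Agent.Helper5.FV

theorem edg_dc {n : ℕ} (E : Finset (Finset (Fin n))) (t : ℝ) :
    ∑ v : Fin n, ((E.filter (fun e => v ∈ e ∧ (e.card : ℝ) < t)).card : ℝ) =
      ∑ e ∈ E.filter (fun e => (e.card : ℝ) < t), (e.card : ℝ) := by
  have h1 : ∀ v : Fin n, ((E.filter (fun e => v ∈ e ∧ (e.card : ℝ) < t)).card : ℝ) =
      ∑ e ∈ E.filter (fun e => (e.card : ℝ) < t), (if v ∈ e then (1 : ℝ) else 0) := by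
    intro v
    have : E.filter (fun e => v ∈ e ∧ (e.card : ℝ) < t) =
        (E.filter (fun e => (e.card : ℝ) < t)).filter (fun e => v ∈ e) := by
      ext e
      simp only [mem_filter]
      tauto
    rw [this, Finset.card_filter]
    push_cast
    rfl
  rw [Finset.sum_congr rfl (fun v _ => h1 v), Finset.sum_comm]
  refine Finset.sum_congr rfl (fun e _ => ?_)
  rw [Finset.sum_boole]
  congr 2
  ext v
  simp

theorem st_EDG (h1 : ST_MAC) : ST_EDG := by
  obtain ⟨c, C, hc, hC, h⟩ := h1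
  refine ⟨c ^ 2 / C, C, by positivity, hC, ?_⟩
  intro n hn E hE hs
  have hn1 : (1 : ℝ) < n := by exact_mod_cast (by omega : 1 < n)
  have hL : 0 < Real.log n := Real.log_pos hn1
  have hn0 : (0 : ℝ) < n := by linarith
  have hd : 0 < c * ((n : ℝ) / Real.log n) := by positivity
  refine h n hn E (univ.filter (fun v : Fin n => c * ((n : ℝ) / Real.log n) <
    ((E.filter (fun e => v ∈ e ∧ (e.card : ℝ) < C * Real.log n)).card : ℝ))) hE ?_ ?_
  · set W0 : Finset (Fin n) := univ.filter (fun v : Fin n => c * ((n : ℝ) / Real.log n) <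
      ((E.filter (fun e => v ∈ e ∧ (e.card : ℝ) < C * Real.log n)).card : ℝ)) with hW
    have e1 : (W0.card : ℝ) * (c * ((n : ℝ) / Real.log n)) ≤
        ∑ v ∈ W0, ((E.filter (fun e => v ∈ e ∧ (e.card : ℝ) < C * Real.log n)).card : ℝ) := by
      rw [← nsmul_eq_mul]
      refine Finset.card_nsmul_le_sum _ _ _ (fun v hv => ?_)
      rw [hW, mem_filter] at hv
      exact hv.2.le
    have e2 : ∑ v ∈ W0, ((E.filter (fun e => v ∈ e ∧ (e.card : ℝ) < C * Real.log n)).card : ℝ) ≤
        ∑ v : Fin n, ((E.filter (fun e => v ∈ e ∧ (e.card : ℝ) < C * Real.log n)).card : ℝ) :=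
      Finset.sum_le_sum_of_subset_of_nonneg (Finset.subset_univ _)
        (fun _ _ _ => Nat.cast_nonneg _)
    have e3 : ∑ e ∈ E.filter (fun e => (e.card : ℝ) < C * Real.log n), (e.card : ℝ) ≤
        ((E.filter (fun e => (e.card : ℝ) < C * Real.log n)).card : ℝ) * (C * Real.log n) := by
      rw [← nsmul_eq_mul]
      refine Finset.sum_le_card_nsmul _ _ _ (fun e he => ?_)
      rw [mem_filter] at he
      exact he.2.le
    have e4 : (W0.card : ℝ) * (c * ((n : ℝ) / Real.log n)) ≤
        (c ^ 2 / C * ((n : ℝ) * Real.sqrt n / Real.log n ^ 3)) * (C * Real.log n) := by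
      rw [edg_dc] at e2
      refine e1.trans (e2.trans (e3.trans ?_))
      exact mul_le_mul_of_nonneg_right hs (by positivity)
    have e5 : (c ^ 2 / C * ((n : ℝ) * Real.sqrt n / Real.log n ^ 3)) * (C * Real.log n) =
        (c * (Real.sqrt n / Real.log n)) * (c * ((n : ℝ) / Real.log n)) := by
      field_simp
    rw [e5] at e4
    exact le_of_mul_le_mul_right e4 hd
  · intro v hv
    by_contra hh
    exact hv (mem_filter.2 ⟨mem_univ _, not_le.1 hh⟩)

end Pool.Agent.Helper5.FV
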