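import Pool.Agent.Helper79.RS.CX
import Pool.Agent.Helper43.FV.SpecG

/-! # Module CXA -/

set_option autoImplicit false

namespace Pool.Agent.Helper43.FV

open Pool.Agent.Helper43.RS
open MvPolynomial

section indep

variable {R : Type} [CommRing R] [IsDomain R] [Algebra ℂ R]

theorem CXA_indep (P : Ideal R) (hP : P.IsPrime)
    (hval : ∀ a b : R, ∃ c s : R, s ∉ P ∧ (a * c = s * b ∨ b * c = s * a)) {s : ℕ}
    (u : Fin s → R) (hu : AlgebraicIndependent ℂ (fun i => Ideal.Quotient.mk P (u i)))
    (A₀ : Subalgebra ℂ (FractionRing R)) (hA₀ : ∀ z ∈ A₀, ∀ z' ∈ A₀, z' ≠ 0 →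
      CX_O P (z / z') → ∃ c : ℂ, CX_m P (z / z' - algebraMap ℂ (FractionRing R) c)) :
    AlgebraicIndependent A₀ (fun i => algebraMap R (FractionRing R) (u i)) := by
  classical
  rw [algebraicIndependent_iff]
  intro f hf
  by_contra hf0
  obtain ⟨α₀, hα₀, hmin⟩ := CX_min hP hval f.support (support_nonempty.mpr hf0)
    (fun α => ((coeff α f : A₀) : FractionRing R)) (by
      intro α hα h
      exact mem_support_iff.mp hα (Subtype.ext h))
  have ht0 : ((coeff α₀ f : A₀) : FractionRing R) ≠ 0 := by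
    intro h
    exact mem_support_iff.mp hα₀ (Subtype.ext h)
  have hc : ∀ α, ∃ c : ℂ, α ∈ f.support → CX_m P
      (((coeff α f : A₀) : FractionRing R) / ((coeff α₀ f : A₀) : FractionRing R) -
        algebraMap ℂ (FractionRing R) c) := by
    intro α
    by_cases hα : α ∈ f.support
    · obtain ⟨c, hc⟩ := hA₀ _ (coeff α f).2 _ (coeff α₀ f).2 ht0 (hmin α hα)
      exact ⟨c, fun _ => hc⟩
    · exact ⟨0, fun h => absurd h hα⟩
  choose c hc using hc
  -- the relation
  have h1 : ∑ α ∈ f.support, ((coeff α f : A₀) : FractionRing R) *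
      algebraMap R (FractionRing R) (∏ i, u i ^ α i) = 0 := by
    rw [aeval_def, eval₂_eq'] at hf
    rw [← hf]
    refine Finset.sum_congr rfl fun α _ => ?_
    rw [map_prod]
    simp only [map_pow]
    rfl
  have h2 : ∑ α ∈ f.support, ((coeff α f : A₀) : FractionRing R) /
      ((coeff α₀ f : A₀) : FractionRing R) *
      algebraMap R (FractionRing R) (∏ i, u i ^ α i) = 0 := by
    have : ∑ α ∈ f.support, ((coeff α f : A₀) : FractionRing R) /
        ((coeff α₀ f : A₀) : FractionRing R) *
        algebraMap R (FractionRing R) (∏ i, u i ^ α i) =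
        (∑ α ∈ f.support, ((coeff α f : A₀) : FractionRing R) *
        algebraMap R (FractionRing R) (∏ i, u i ^ α i)) /
        ((coeff α₀ f : A₀) : FractionRing R) := by
      rw [Finset.sum_div]
      refine Finset.sum_congr rfl fun α _ => ?_
      ring
    rw [this, h1, zero_div]
  set g : MvPolynomial (Fin s) ℂ := ∑ α ∈ f.support, monomial α (c α) with hg
  have h3 : aeval u g = ∑ α ∈ f.support, c α • ∏ i, u i ^ α i := by
    rw [hg, map_sum]
    refine Finset.sum_congr rfl fun α _ => ?_
    rw [aeval_monomial, Finsupp.prod_fintype _ _ (fun i => pow_zero _), Algebra.smul_def]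
  have h4 : aeval u g ∈ P := by
    apply CX_m_alg hP
    have h5 : algebraMap R (FractionRing R) (aeval u g) =
        ∑ α ∈ f.support, (-(((coeff α f : A₀) : FractionRing R) /
          ((coeff α₀ f : A₀) : FractionRing R) - algebraMap ℂ (FractionRing R) (c α))) *
          algebraMap R (FractionRing R) (∏ i, u i ^ α i) := by
      have h6 : ∀ α ∈ f.support, (-(((coeff α f : A₀) : FractionRing R) /
          ((coeff α₀ f : A₀) : FractionRing R) - algebraMap ℂ (FractionRing R) (c α))) *
          algebraMap R (FractionRing R) (∏ i, u i ^ α i) =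
          algebraMap R (FractionRing R) (c α • ∏ i, u i ^ α i) -
          ((coeff α f : A₀) : FractionRing R) / ((coeff α₀ f : A₀) : FractionRing R) *
          algebraMap R (FractionRing R) (∏ i, u i ^ α i) := by
        intro α _
        rw [Algebra.smul_def, map_mul, ← IsScalarTower.algebraMap_apply]
        ring
      rw [Finset.sum_congr rfl h6, Finset.sum_sub_distrib, h2, sub_zero, h3, map_sum]
    rw [h5]
    apply CX_m_sum hP
    intro α hα
    exact CX_m_mul (CX_m_neg (hc α hα)) _
  have h5 : aeval (fun i => Ideal.Quotient.mk P (u i)) g = 0 := by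
    have h6 := comp_aeval_apply u (Ideal.Quotient.mkₐ ℂ P) g
    have h7 : Ideal.Quotient.mkₐ ℂ P (aeval u g) = 0 := Ideal.Quotient.eq_zero_iff_mem.mpr h4
    rw [h7] at h6
    exact h6.symm
  have h6 := (algebraicIndependent_iff.mp hu) g h5
  have h7 : coeff α₀ g = c α₀ := by
    rw [hg, coeff_sum]
    simp only [coeff_monomial]
    rw [Finset.sum_ite_eq' f.support α₀, if_pos hα₀]
  rw [h6, coeff_zero] at h7
  have h8 := hc α₀ hα₀
  rw [← h7, map_zero, sub_zero, div_self ht0] at h8
  have h9 : (1 : R) ∈ P := CX_m_alg hP (by rw [map_one]; exact h8)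
  exact hP.ne_top ((Ideal.eq_top_iff_one P).mpr h9)

end indep

theorem st_CXA : ST_CXA := by
  classical
  intro R _ _ _ _ _ P hP hdim z₁ z₂ hkey
  have hval := CX_val P hdim
  by_contra hdep
  obtain ⟨z, hz⟩ : ∃ z : Fin 2 → FractionRing R, z = ![z₁, z₂] := ⟨_, rfl⟩
  rw [← hz] at hkey
  have hzi : AlgebraicIndependent ℂ z := by
    rw [algebraicIndependent_iff]
    intro f hf
    by_contra hf0
    exact hdep ⟨f, hf0, by rw [← hz]; exact hf⟩
  obtain ⟨s, g, hg, hint⟩ := exists_integral_inj_algHom_of_fg ℂ (R ⧸ P)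
  have h0 : ringKrullDim (R ⧸ P) = s :=
    Pool.Agent.Helper87.KrullDim.ringKrullDim_of_noether g hg hint
  obtain ⟨s', g', hg', hint'⟩ := exists_integral_inj_algHom_of_fg ℂ R
  have h0' : ringKrullDim R = s' :=
    Pool.Agent.Helper87.KrullDim.ringKrullDim_of_noether g' hg' hint'
  have hle : s' ≤ s + 1 := by
    rw [h0, h0'] at hdim
    have h4 : (((s' : ℕ) : ℕ∞) : WithBot ℕ∞) ≤ (((s + 1 : ℕ) : ℕ∞) : WithBot ℕ∞) := by
      push_cast
      exact hdim
    exact_mod_cast h4
  have hu : ∀ i : Fin s, ∃ u : R, Ideal.Quotient.mk P u = g (X i) :=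
    fun i => Ideal.Quotient.mk_surjective _
  choose u hu using hu
  have hui : AlgebraicIndependent ℂ (fun i => Ideal.Quotient.mk P (u i)) := by
    have h1 : (fun i => Ideal.Quotient.mk P (u i)) = fun i => g (X i) := funext hu
    rw [h1]
    have h2 : (aeval (fun i => g (X i)) : MvPolynomial (Fin s) ℂ →ₐ[ℂ] (R ⧸ P)) = g := by
      apply MvPolynomial.algHom_ext
      intro i
      rw [aeval_X]
    unfold AlgebraicIndependent
    rw [h2]
    exact hg
  have hA : ∀ y ∈ Algebra.adjoin ℂ (Set.range z), ∀ y' ∈ Algebra.adjoin ℂ (Set.range z), y' ≠ 0 →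
      CX_O P (y / y') → ∃ c : ℂ, CX_m P (y / y' - algebraMap ℂ (FractionRing R) c) := by
    intro y hy y' hy' hy0 hO
    rw [Algebra.adjoin_range_eq_range_aeval] at hy hy'
    obtain ⟨p, rfl⟩ := hy
    obtain ⟨p', rfl⟩ := hy'
    obtain ⟨a, b, hb, e⟩ := hO
    obtain ⟨c, hc⟩ := hkey p p' hy0 a b hb e
    refine ⟨c, a - c • b, b, hc, hb, ?_⟩
    rw [map_sub, ← e, Algebra.smul_def, map_mul, ← IsScalarTower.algebraMap_apply]
    exact sub_mul _ _ _
  have hind := CXA_indep P hP hval u hui _ hA
  have hsum := hzi.sumElim hind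
  have hfin : AlgebraicIndependent ℂ
      ((Sum.elim (fun i => algebraMap R (FractionRing R) (u i)) z) ∘
        (finSumFinEquiv (m := s) (n := 2)).symm) :=
    hsum.comp _ (finSumFinEquiv (m := s) (n := 2)).symm.injective
  have hcard := Pool.Agent.Helper87.KrullDim.card_le_of_algebraic _ hfin
    (Set.range fun j => algebraMap R (FractionRing R) (g' (X j))) s' (by
      rw [← Set.image_univ]
      refine (Set.encard_image_le _ _).trans ?_
      rw [Set.encard_univ]
      simp) (fun i => CX_algebraic g' hint' _)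
  omega

end Pool.Agent.Helper43.FV
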