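import Pool.Agent.Helper43.FV.SpecG

/-! # Module GCX -/

set_option autoImplicit false

namespace Pool.Agent.Helper43.FV

open Pool.Agent.Helper43.RS
open MvPolynomial

/-- transport of `ST_CXA` to the field `K` -/
theorem GCX_alg (hCXA : ST_CXA) {n : ℕ} (R : Type) [CommRing R] [IsDomain R]
    [IsIntegrallyClosed R] [Algebra ℂ R] [Algebra.FiniteType ℂ R] (P : Ideal R) (hP : P.IsPrime)
    (hdim : ringKrullDim R ≤ ringKrullDim (R ⧸ P) + 1) (K : Type) [Field K] [Algebra ℂ K]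
    (e : MvPolynomial (Fin n) ℂ →ₐ[ℂ] R) (he : Function.Surjective e)
    (cr : MvPolynomial (Fin n) ℂ →ₐ[ℂ] K) (hker : ∀ p, cr p = 0 ↔ e p = 0)
    (hfrac : ∀ f : K, ∃ p q, cr q ≠ 0 ∧ f * cr q = cr p) (f h : K)
    (hkey : ∀ p p' : MvPolynomial (Fin 2) ℂ, ∀ u v : MvPolynomial (Fin n) ℂ, e v ∉ P →
      aeval ![f, h] p / aeval ![f, h] p' * cr v = cr u → ∃ c : ℂ, e u - c • e v ∈ P) :
    AlgDep f h := by
  classical
  have hle : RingHom.ker (e : MvPolynomial (Fin n) ℂ →+* R) ≤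
      RingHom.ker (cr : MvPolynomial (Fin n) ℂ →+* K) := by
    intro p hp
    exact (hker p).mpr hp
  have hes : Function.Surjective (e : MvPolynomial (Fin n) ℂ →+* R) := he
  obtain ⟨j₀, hj₀⟩ : ∃ j₀ : R →+* K, ∀ p, j₀ (e p) = cr p :=
    ⟨(e : MvPolynomial (Fin n) ℂ →+* R).liftOfSurjective hes
      ⟨(cr : MvPolynomial (Fin n) ℂ →+* K), hle⟩, fun p =>
      RingHom.liftOfSurjective_comp_apply _ hes ⟨(cr : MvPolynomial (Fin n) ℂ →+* K), hle⟩ p⟩
  let j : R →ₐ[ℂ] K := { j₀ with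
    commutes' := fun c => by
      change j₀ (algebraMap ℂ R c) = _
      rw [← e.commutes c, hj₀, cr.commutes] }
  have hj : ∀ p, j (e p) = cr p := hj₀
  have hjinj : Function.Injective j := by
    rw [injective_iff_map_eq_zero]
    intro r hr
    obtain ⟨p, rfl⟩ := he r
    rw [hj] at hr
    exact (hker p).mp hr
  let ι : FractionRing R →ₐ[ℂ] K := IsFractionRing.liftAlgHom (g := j) hjinj
  have hι : ∀ r : R, ι (algebraMap R (FractionRing R) r) = j r := fun r => by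
    change IsFractionRing.liftAlgHom (g := j) hjinj _ = _
    rw [IsFractionRing.liftAlgHom_apply, IsFractionRing.lift_algebraMap]
    rfl
  have hsurj : ∀ f : K, ∃ z : FractionRing R, ι z = f := by
    intro f
    obtain ⟨p, q, hq, hf⟩ := hfrac f
    refine ⟨algebraMap R (FractionRing R) (e p) / algebraMap R (FractionRing R) (e q), ?_⟩
    rw [map_div₀, hι, hι, hj, hj, div_eq_iff hq, hf]
  obtain ⟨z₁, hz₁⟩ := hsurj f
  obtain ⟨z₂, hz₂⟩ := hsurj h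
  have hae : ∀ p : MvPolynomial (Fin 2) ℂ, ι (aeval ![z₁, z₂] p) = aeval ![f, h] p := by
    intro p
    rw [comp_aeval_apply]
    congr 2
    funext i
    refine Fin.cases ?_ (fun i => ?_) i
    · exact hz₁
    · refine Fin.cases ?_ (fun i => i.elim0) i
      exact hz₂
  obtain ⟨p, hp, hp0⟩ := hCXA R P hP hdim z₁ z₂ (by
    intro p p' hp' u v hv huv
    obtain ⟨u, rfl⟩ := he u
    obtain ⟨v, rfl⟩ := he v
    apply hkey p p' u v hv
    have h1 := congrArg ι huv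
    rw [map_mul, map_div₀, hae, hae, hι, hι, hj, hj] at h1
    exact h1)
  refine ⟨p, hp, ?_⟩
  rw [← hae, hp0, map_zero]

/-- homogenization -/
theorem GCX_hom {n : ℕ} (r : MvPolynomial (Fin n) ℂ) (ψ Pv : Fin n → ℂ) (Q : ℂ)
    (h : ∀ l, ψ l * Q = Pv l) :
    ∑ α ∈ r.support, coeff α r * (∏ l, Pv l ^ α l) * Q ^ (r.totalDegree - ∑ l, α l) =
      Q ^ r.totalDegree * eval ψ r := by
  rw [eval_eq', Finset.mul_sum]
  refine Finset.sum_congr rfl fun α hα => ?_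
  have hle : ∑ l, α l ≤ r.totalDegree := by
    have := le_totalDegree hα
    rwa [Finsupp.sum_fintype _ _ (fun _ => rfl)] at this
  have h1 : ∏ l, Pv l ^ α l = (∏ l, ψ l ^ α l) * Q ^ ∑ l, α l := by
    rw [← Finset.prod_pow_eq_pow_sum, ← Finset.prod_mul_distrib]
    refine Finset.prod_congr rfl fun l _ => ?_
    rw [← h l, mul_pow]
  have h2 : Q ^ r.totalDegree = Q ^ (∑ l, α l) * Q ^ (r.totalDegree - ∑ l, α l) := by
    rw [← pow_add]
    congr 1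
    omega
  rw [h1, h2]
  ring

section act

variable {X : Type} {𝒜 : Atlas X} {m : ℕ} {G : Subgroup (GL (Fin m) ℂ)} [MulAction G X]

/-- the set of `b` in `B` with `b x` in a basic open subset of a chart contains a basic open
neighbourhood of each of its points -/
theorem GCX_open (hact : IsRegAction 𝒜 G) {B : Subgroup (GL (Fin m) ℂ)} (hBG : B ≤ G)
    {i : Fin 𝒜.k} {x : X} (hx : x ∈ 𝒜.U i) (r : MvPolynomial (Fin 𝒜.n) ℂ)
    (b₁ : GL (Fin m) ℂ) (hb₁ : b₁ ∈ B) (hU : (⟨b₁, hBG hb₁⟩ : G) • x ∈ 𝒜.U i)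
    (hr : eval (𝒜.φ i ((⟨b₁, hBG hb₁⟩ : G) • x)) r ≠ 0) :
    ∃ h ∈ groupFun B, h ⟨b₁, hb₁⟩ ≠ 0 ∧ ∀ b : B, h b ≠ 0 →
      (⟨(b : GL (Fin m) ℂ), hBG b.2⟩ : G) • x ∈ 𝒜.U i ∧
      eval (𝒜.φ i ((⟨(b : GL (Fin m) ℂ), hBG b.2⟩ : G) • x)) r ≠ 0 := by
  classical
  obtain ⟨q, p, hq, hall⟩ := hact i i ⟨b₁, hBG hb₁⟩ x hx hU
  obtain ⟨W, hW⟩ : ∃ W : MvPolynomial (((Fin m × Fin m) ⊕ (Fin m × Fin m)) ⊕ Fin 𝒜.n) ℂ,
      W = q * ∑ α ∈ r.support, C (coeff α r) * (∏ l, p l ^ α l) *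
        q ^ (r.totalDegree - ∑ l, α l) := ⟨_, rfl⟩
  have hWe : ∀ g : GL (Fin m) ℂ, eval (Sum.elim (entries g) (𝒜.φ i x)) W =
      eval (Sum.elim (entries g) (𝒜.φ i x)) q *
        ∑ α ∈ r.support, coeff α r *
          (∏ l, (eval (Sum.elim (entries g) (𝒜.φ i x)) (p l)) ^ α l) *
          (eval (Sum.elim (entries g) (𝒜.φ i x)) q) ^ (r.totalDegree - ∑ l, α l) := by
    intro g
    rw [hW, map_mul, map_sum]
    congr 1
    refine Finset.sum_congr rfl fun α _ => ?_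
    rw [map_mul, map_mul, eval_C, map_prod, map_pow]
    simp only [map_pow]
  have hval : ∀ (b : GL (Fin m) ℂ) (hb : b ∈ B),
      eval (Sum.elim (entries b) (𝒜.φ i x)) q ≠ 0 →
      (⟨b, hBG hb⟩ : G) • x ∈ 𝒜.U i ∧
      eval (Sum.elim (entries b) (𝒜.φ i x)) W =
        eval (Sum.elim (entries b) (𝒜.φ i x)) q *
          (eval (Sum.elim (entries b) (𝒜.φ i x)) q ^ r.totalDegree *
            eval (𝒜.φ i ((⟨b, hBG hb⟩ : G) • x)) r) := by
    intro b hb hqb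
    obtain ⟨h1, h2⟩ := hall ⟨b, hBG hb⟩ x hx hqb
    refine ⟨h1, ?_⟩
    rw [hWe, GCX_hom r _ _ _ h2]
  refine ⟨fun b => eval (Sum.elim (entries (b : GL (Fin m) ℂ)) (𝒜.φ i x)) W, ?_, ?_, ?_⟩
  · rw [mem_groupFun]
    refine ⟨aeval (Sum.elim (fun e => MvPolynomial.X e) (fun l => C (𝒜.φ i x l)) :
      ((Fin m × Fin m) ⊕ (Fin m × Fin m)) ⊕ Fin 𝒜.n →
        MvPolynomial ((Fin m × Fin m) ⊕ (Fin m × Fin m)) ℂ) W, fun b => ?_⟩
    have h1 : ∀ V : MvPolynomial (((Fin m × Fin m) ⊕ (Fin m × Fin m)) ⊕ Fin 𝒜.n) ℂ,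
        eval (Sum.elim (entries (b : GL (Fin m) ℂ)) (𝒜.φ i x)) V =
        eval (entries (b : GL (Fin m) ℂ)) (aeval (Sum.elim (fun e => MvPolynomial.X e)
          (fun l => C (𝒜.φ i x l)) : ((Fin m × Fin m) ⊕ (Fin m × Fin m)) ⊕ Fin 𝒜.n →
        MvPolynomial ((Fin m × Fin m) ⊕ (Fin m × Fin m)) ℂ) V) := by
      intro V
      induction V using MvPolynomial.induction_on with
      | C a => simp
      | add p q hp hq => rw [map_add, map_add, map_add, hp, hq]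
      | mul_X p k hp =>
        rw [map_mul, map_mul, map_mul, hp]
        congr 1
        rcases k with k | k
        · simp
        · simp
    exact h1 W
  · change eval (Sum.elim (entries b₁) (𝒜.φ i x)) W ≠ 0
    rw [(hval b₁ hb₁ hq).2]
    exact mul_ne_zero hq (mul_ne_zero (pow_ne_zero _ hq) hr)
  · intro b hb
    have hqb : eval (Sum.elim (entries (b : GL (Fin m) ℂ)) (𝒜.φ i x)) q ≠ 0 := by
      intro h0
      apply hb
      change eval (Sum.elim (entries (b : GL (Fin m) ℂ)) (𝒜.φ i x)) W = 0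
      rw [hWe, h0, zero_mul]
    obtain ⟨h1, h2⟩ := hval b b.2 hqb
    refine ⟨h1, fun h0 => hb ?_⟩
    change eval (Sum.elim (entries (b : GL (Fin m) ℂ)) (𝒜.φ i x)) W = 0
    rw [h2, h0, mul_zero, mul_zero]

end act

theorem st_GCX (hCXA : ST_CXA) (hGEV : ST_GEV) : ST_GCX := by
  classical
  intro X 𝒜 h𝒜 K _ _ cr hcr m G _ hact ρ hρ B hBG hB i x hx hdim f h hf hh
  obtain ⟨huniq, hadd, hmul, hinv, hconst, hcrEv, hrep, hid⟩ := hGEV X 𝒜 h𝒜 K cr hcr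
  obtain ⟨T, hT⟩ : ∃ T, T = 𝒜.φ i '' 𝒜.U i := ⟨_, rfl⟩
  obtain ⟨S, hS⟩ : ∃ S, S = 𝒜.φ i '' (orb (G := G) B x ∩ 𝒜.U i) := ⟨_, rfl⟩
  have hST : S ⊆ T := by
    rw [hS, hT]
    exact Set.image_mono Set.inter_subset_right
  have hdim' : ringKrullDim (polyFun T) ≤ ringKrullDim (polyFun S) + 1 := by
    unfold dimIn at hdim
    rw [Set.univ_inter, ← hT, ← hS] at hdim
    exact hdim
  have hdom : IsDomain (polyFun T) := by rw [hT]; exact h𝒜.domain i
  have hnor : IsIntegrallyClosed (polyFun T) := by rw [hT]; exact h𝒜.normal i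
  obtain ⟨e, he, heval⟩ : ∃ e : MvPolynomial (Fin 𝒜.n) ℂ →ₐ[ℂ] polyFun T,
      Function.Surjective e ∧ ∀ p (z : T), (e p : T → ℂ) z = eval (z : Fin 𝒜.n → ℂ) p :=
    ⟨(AlgHom.pi (fun x : T => (aeval (x : Fin 𝒜.n → ℂ) :
      MvPolynomial (Fin 𝒜.n) ℂ →ₐ[ℂ] ℂ))).rangeRestrict, AlgHom.rangeRestrict_surjective _,
      fun p z => by
        change (AlgHom.pi (fun x : T => (aeval (x : Fin 𝒜.n → ℂ) :
          MvPolynomial (Fin 𝒜.n) ℂ →ₐ[ℂ] ℂ))) p z = _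
        rw [AlgHom.pi_apply, aeval_eq_eval]⟩
  have hft : Algebra.FiniteType ℂ (polyFun T) := Algebra.FiniteType.of_surjective e he
  -- restriction to the orbit
  have hresmem : ∀ r : polyFun T, (fun s : S => (r : T → ℂ) ⟨s.1, hST s.2⟩) ∈ polyFun S := by
    intro r
    obtain ⟨p, hp⟩ := mem_polyFun.mp r.2
    exact mem_polyFun.mpr ⟨p, fun s => hp ⟨s.1, hST s.2⟩⟩
  let res : polyFun T →+* polyFun S :=
    { toFun := fun r => ⟨fun s : S => (r : T → ℂ) ⟨s.1, hST s.2⟩, hresmem r⟩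
      map_one' := rfl
      map_mul' := fun _ _ => rfl
      map_zero' := rfl
      map_add' := fun _ _ => rfl }
  have hressurj : Function.Surjective res := by
    intro g
    obtain ⟨p, hp⟩ := mem_polyFun.mp g.2
    refine ⟨e p, ?_⟩
    apply Subtype.ext
    funext s
    change (e p : T → ℂ) ⟨s.1, hST s.2⟩ = (g : S → ℂ) s
    rw [heval, hp s]
  obtain ⟨P, hPdef⟩ : ∃ P, P = RingHom.ker res := ⟨_, rfl⟩
  have hPmem : ∀ p : MvPolynomial (Fin 𝒜.n) ℂ, e p ∈ P ↔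
      ∀ y ∈ orb (G := G) B x ∩ 𝒜.U i, eval (𝒜.φ i y) p = 0 := by
    intro p
    rw [hPdef, RingHom.mem_ker]
    constructor
    · intro h0 y hy
      have hyS : 𝒜.φ i y ∈ S := by rw [hS]; exact ⟨y, hy, rfl⟩
      have h1 := congrFun (congrArg Subtype.val h0) ⟨𝒜.φ i y, hyS⟩
      change (e p : T → ℂ) ⟨𝒜.φ i y, hST hyS⟩ = 0 at h1
      rwa [heval] at h1
    · intro h0
      apply Subtype.ext
      funext s
      change (e p : T → ℂ) ⟨s.1, hST s.2⟩ = 0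
      rw [heval]
      obtain ⟨y, hy, hys⟩ : (s : Fin 𝒜.n → ℂ) ∈ 𝒜.φ i '' (orb (G := G) B x ∩ 𝒜.U i) :=
        hS.subset s.2
      change eval (s : Fin 𝒜.n → ℂ) p = 0
      rw [← hys]
      exact h0 y hy
  have hdimP : ringKrullDim (polyFun T ⧸ P) = ringKrullDim (polyFun S) := by
    rw [hPdef]
    exact ringKrullDim_eq_of_ringEquiv (RingHom.quotientKerEquivOfSurjective hressurj)
  have hxorb : x ∈ orb (G := G) B x := ⟨1, B.one_mem, (one_smul G x).symm⟩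
  have hPprime : P.IsPrime := by
    refine ⟨?_, ?_⟩
    · intro h0
      have h1 : e 1 ∈ P := by rw [h0]; exact Submodule.mem_top
      have h2 := (hPmem 1).mp h1 x ⟨hxorb, hx⟩
      rw [map_one] at h2
      exact one_ne_zero h2
    · intro r s hrs
      obtain ⟨r, rfl⟩ := he r
      obtain ⟨s, rfl⟩ := he s
      rw [← map_mul] at hrs
      by_contra hcon
      push Not at hcon
      obtain ⟨hr, hs⟩ := hcon
      rw [hPmem] at hr hs
      push Not at hr hs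
      obtain ⟨y₁, ⟨⟨b₁, hb₁, rfl⟩, hU₁⟩, hr₁⟩ := hr
      obtain ⟨y₂, ⟨⟨b₂, hb₂, rfl⟩, hU₂⟩, hs₂⟩ := hs
      obtain ⟨h₁, hh₁, hne₁, hall₁⟩ := GCX_open hact hBG hx r b₁ hb₁ hU₁ hr₁
      obtain ⟨h₂, hh₂, hne₂, hall₂⟩ := GCX_open hact hBG hx s b₂ hb₂ hU₂ hs₂
      have hprod : h₁ * h₂ ≠ 0 := by
        intro h0
        rcases hB.irreducible h₁ hh₁ h₂ hh₂ h0 with h0 | h0
        · exact hne₁ (congrFun h0 _)
        · exact hne₂ (congrFun h0 _)
      obtain ⟨b, hb⟩ := Function.ne_iff.mp hprod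
      have hb1 : h₁ b ≠ 0 := left_ne_zero_of_mul hb
      have hb2 : h₂ b ≠ 0 := right_ne_zero_of_mul hb
      obtain ⟨hU, hrb⟩ := hall₁ b hb1
      obtain ⟨-, hsb⟩ := hall₂ b hb2
      have h3 := (hPmem (r * s)).mp hrs _ ⟨⟨⟨(b : GL (Fin m) ℂ), hBG b.2⟩, b.2, rfl⟩, hU⟩
      rw [map_mul] at h3
      exact (mul_ne_zero hrb hsb) h3
  apply GCX_alg hCXA (polyFun T) P hPprime (by rw [hdimP]; exact hdim') K e he (cr i) ?_
    (hcr.frac i) f h ?_
  · intro p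
    rw [hcr.zero i p]
    constructor
    · intro h0
      apply Subtype.ext
      funext z
      change (e p : T → ℂ) z = 0
      rw [heval]
      obtain ⟨y, hy, hyz⟩ : (z : Fin 𝒜.n → ℂ) ∈ 𝒜.φ i '' 𝒜.U i := hT.subset z.2
      rw [← hyz]
      exact h0 y hy
    · intro h0 y hy
      have hyT : 𝒜.φ i y ∈ T := by rw [hT]; exact ⟨y, hy, rfl⟩
      have h1 := congrFun (congrArg Subtype.val h0) ⟨𝒜.φ i y, hyT⟩
      change (e p : T → ℂ) ⟨𝒜.φ i y, hyT⟩ = 0 at h1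
      rwa [heval] at h1
  · intro p p' u v hv huv
    obtain ⟨z, hz⟩ : ∃ z, z = aeval ![f, h] p / aeval ![f, h] p' := ⟨_, rfl⟩
    rw [← hz] at huv
    -- `z` is invariant
    have hzinv : ∀ b : G, (b : GL (Fin m) ℂ) ∈ B → ρ b z = z := by
      intro b hb
      have h1 : ∀ q : MvPolynomial (Fin 2) ℂ, ρ b (aeval ![f, h] q) = aeval ![f, h] q := by
        intro q
        have h2 := comp_aeval_apply ![f, h] (ρ b : K ≃ₐ[ℂ] K).toAlgHom q
        change ρ b (aeval ![f, h] q) = _ at h2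
        rw [h2]
        congr 2
        funext k
        refine Fin.cases ?_ (fun k => ?_) k
        · exact hf b hb
        · refine Fin.cases ?_ (fun k => k.elim0) k
          exact hh b hb
      rw [hz, map_div₀, h1, h1]
    rw [hPmem] at hv
    push Not at hv
    obtain ⟨y₀, ⟨⟨b₀, hb₀, rfl⟩, hU₀⟩, hv₀⟩ := hv
    obtain ⟨c, hc⟩ : ∃ c, c = eval (𝒜.φ i (b₀ • x)) u / eval (𝒜.φ i (b₀ • x)) v := ⟨_, rfl⟩
    have hE₀ : Ev cr z (b₀ • x) c :=
      ⟨i, u, v, hU₀, hv₀, huv, by rw [hc, div_mul_cancel₀ _ hv₀]⟩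
    have hE : ∀ b : G, (b : GL (Fin m) ℂ) ∈ B → Ev cr z (b • x) c := by
      intro b hb
      have hmem : ((b * b₀⁻¹ : G) : GL (Fin m) ℂ) ∈ B := by
        have : ((b * b₀⁻¹ : G) : GL (Fin m) ℂ) = (b : GL (Fin m) ℂ) * (b₀ : GL (Fin m) ℂ)⁻¹ := rfl
        rw [this]
        exact B.mul_mem hb (B.inv_mem hb₀)
      have h1 := (hρ (b * b₀⁻¹) z (b₀ • x) c).mp hE₀
      rw [hzinv _ hmem, smul_smul, inv_mul_cancel_right] at h1
      exact h1
    refine ⟨c, ?_⟩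
    have h1 : e u - c • e v = e (u - c • v) := by rw [map_sub, map_smul]
    rw [h1, hPmem]
    rintro y ⟨⟨b, hb, rfl⟩, hU⟩
    obtain ⟨p₁, q₁, hq₁, h2, h3⟩ := hrep z (b • x) c i (hE b hb) hU
    -- `u q₁ = p₁ v` in `K`
    have h4 : cr i (u * q₁ - p₁ * v) = 0 := by
      rw [map_sub, map_mul, map_mul, ← huv, ← h2]
      ring
    have h5 := (hcr.zero i _).mp h4 _ hU
    rw [map_sub, map_mul, map_mul] at h5
    rw [map_sub, smul_eval]
    have h6 : (eval (𝒜.φ i (b • x)) u - c * eval (𝒜.φ i (b • x)) v) *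
        eval (𝒜.φ i (b • x)) q₁ = 0 := by
      linear_combination h5 - (eval (𝒜.φ i (b • x)) v) * h3
    exact (mul_eq_zero.mp h6).resolve_right hq₁

end Pool.Agent.Helper43.FV
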